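import Pool.Agent.U991.Car.Upper

/-!
# Carousel tournaments have their maximum density in the carousel limit

For every `n` and every limit `φ` of tournaments, `φ(R_{2n+1}) ≤ φ_R(R_{2n+1}) = 4^{-n}`, where
`R_{2n+1}` is the carousel tournament and `φ_R` the limit of the sequence of carousel tournaments.
This answers Q1 of the problem affirmatively.

Outline of the proof.

* *Sign matrices.* Let `s(u,v) = ±1` be the skew sign matrix of a tournament. Modulo two a principal
  submatrix of even order `k` is `J - I` with `(J - I)² = I`, so it is invertible. Call a nonempty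
  set `K` of vertices *positive* if there is a vector `x > 0` on `K` with `∑_{v∈K} s(u,v) x_v = 0` for
  all `u ∈ K`. Then `|K|` is odd, `x` is unique up to scaling, and
  `f_K(u) = sign ∑_{v∈K} s(u,v) x_v` is `1` or `-1` for every `u ∉ K`. Every regular tournament, in
  particular `R_{2n+1}`, is positive (`x = 1`).
* *Optimal strategies.* Every nonempty finite set `S` of vertices contains exactly one positive set
  `K` with `f_K = -1` on `S ∖ K` (the support of the optimal strategy of the tournament game on `S`).
* *Identity.* Inclusion–exclusion of the previous statement over the nonempty subsets of a set `S`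
  of odd size gives `∑_{K ⊆ S positive} 2^{|K|} ∏_{u ∈ S ∖ K} f_K(u) = 2`.
* *Averaging.* Take the average over all maps `x` from an `m`-set, `m` odd, to the vertices: the
  contribution of the subsets `K = x(I)` with `|I| = j` is an average of
  `2^j (∑_u f_K(u))^{m-j} ≥ 0`, because `m - j` is even. Keeping only `j = m` shows that the
  proportion of positive `m`-sets is at most `2^{1-m} + o(1)`.
* *The carousel.* Up to isomorphism `R_{2n+1}` is the tournament on `{0,…,2n}` in which, for
  `i < j`, `i → j` if and only if `j - i` is even. So the limit densities of the carousel sequence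
  are given by a uniformly random parity pattern, and `R_{2n+1}` is obtained from the two
  alternating patterns: `φ_R(R_{2n+1}) ≥ 2 / 2^{2n+1} = 4^{-n}`.
-/

namespace Pool.Agent.Results.MP_286abe_co.CarouselMaximum

open Filter Topology Pool.Agent.U991.Car

/-- The sequence of carousel tournaments converges, its limit `φR` is a limit of tournaments, and
for every `n` the density of the carousel tournament `R_{2n+1}` in `φR` equals `4^{-n}` and is the
greatest density of `R_{2n+1}` in a limit of tournaments. -/
theorem result :
    ∃ φR : (k : ℕ) → Tournament k → ℝ,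
      (∀ (k : ℕ) (T : Tournament k),
        Tendsto (fun m => density T (carousel m)) atTop (𝓝 (φR k T))) ∧
      IsLimit φR ∧
      ∀ n : ℕ, φR (2 * n + 1) (carousel n) = (1 / 4 : ℝ) ^ n ∧
        IsGreatest {d : ℝ | ∃ φ : (k : ℕ) → Tournament k → ℝ,
          IsLimit φ ∧ φ (2 * n + 1) (carousel n) = d} (φR (2 * n + 1) (carousel n)) := by
  refine ⟨phiR, carousel_tendsto, phiR_isLimit, fun n => ?_⟩
  have h1 : phiR (2 * n + 1) (carousel n) = (1 / 4 : ℝ) ^ n :=
    le_antisymm (limit_bound phiR phiR_isLimit n) (phiR_ge n)
  refine ⟨h1, ⟨phiR, phiR_isLimit, rfl⟩, ?_⟩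
  rintro d ⟨φ, hφ, rfl⟩
  rw [h1]
  exact limit_bound φ hφ n

end Pool.Agent.Results.MP_286abe_co.CarouselMaximum
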